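import Mathlib

set_option autoImplicit false

namespace Pool.Agent.Results.MP_307af1_al.ResiduallyFinite

/-- In a group with `[x, y]^5 = 1` an element of a subgroup `H` commutes with every element that
normalises `H`, if `H` has no element of order `5`. -/
theorem norm_comm {G : Type} [Group G] (h5 : ∀ x y : G, (x * y * x⁻¹ * y⁻¹) ^ 5 = 1)
    (H : Subgroup G) (hH : ∀ h ∈ H, h ^ 5 = 1 → h = 1) (x y : G)
    (hx : x * y * x⁻¹ ∈ H) (hy : y ∈ H) : x * y = y * x := by
  have h1 : x * y * x⁻¹ * y⁻¹ ∈ H := H.mul_mem hx (H.inv_mem hy)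
  have h2 := hH _ h1 (h5 x y)
  rw [mul_inv_eq_one, mul_inv_eq_iff_eq_mul] at h2
  exact h2

theorem fin_case (G : Type) [Group G] [Finite G] (h5 : ∀ x y : G, (x * y * x⁻¹ * y⁻¹) ^ 5 = 1)
    (q : ℕ) [hq : Fact q.Prime] (hq5 : q ≠ 5) : ¬ q ∣ Nat.card (commutator G) := by
  let P : Sylow q G := default
  have hP5 : ∀ h ∈ (P : Subgroup G), h ^ 5 = 1 → h = 1 := by
    intro h hh h1
    obtain ⟨k, hk⟩ := P.2 ⟨h, hh⟩
    have h2 : h ^ q ^ k = 1 := by
      have := congrArg Subtype.val hk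
      simpa using this
    have h3 : Nat.Coprime 5 (q ^ k) :=
      Nat.Coprime.pow_right k ((Nat.coprime_primes Nat.prime_five hq.out).mpr (Ne.symm hq5))
    have h4 : orderOf h ∣ Nat.gcd 5 (q ^ k) :=
      Nat.dvd_gcd (orderOf_dvd_of_pow_eq_one h1) (orderOf_dvd_of_pow_eq_one h2)
    rw [h3] at h4
    exact orderOf_eq_one_iff.mp (Nat.dvd_one.mp h4)
  have hP : Subgroup.normalizer (P : Set G) ≤ Subgroup.centralizer (P : Set G) := by
    intro x hx
    rw [Subgroup.mem_centralizer_iff]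
    intro y hy
    exact (norm_comm h5 P hP5 x y ((Subgroup.mem_normalizer_iff.mp hx y).mp hy) hy).symm
  have hle : commutator G ≤ (MonoidHom.transferSylow P hP).ker := by
    rw [commutator_def, Subgroup.commutator_le]
    intro a _ b _
    rw [MonoidHom.mem_ker, map_commutatorElement, commutatorElement_eq_one_iff_mul_comm]
    have h6 := hP (Subgroup.le_normalizer ((MonoidHom.transferSylow P hP) a).2)
    rw [Subgroup.mem_centralizer_iff] at h6
    exact Subtype.ext (h6 _ ((MonoidHom.transferSylow P hP) b).2).symm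
  intro hdvd
  exact MonoidHom.not_dvd_card_ker_transferSylow P hP
    (hdvd.trans (Subgroup.card_dvd_of_le hle))

theorem fin_elem (G : Type) [Group G] [Finite G] (h5 : ∀ x y : G, (x * y * x⁻¹ * y⁻¹) ^ 5 = 1)
    (g : G) (hg : g ∈ commutator G) (r : ℕ) (hr : Nat.Coprime 5 r) (hgr : g ^ r = 1) : g = 1 := by
  by_contra hne
  have h1 : orderOf g ≠ 1 := fun h => hne (orderOf_eq_one_iff.mp h)
  obtain ⟨q, hq, hqd⟩ := Nat.exists_prime_and_dvd h1
  have _ := Fact.mk hq
  have h2 : orderOf g ∣ r := orderOf_dvd_of_pow_eq_one hgr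
  have h3 : q ≠ 5 := by
    rintro rfl
    have h4 : 5 ∣ Nat.gcd 5 r := Nat.dvd_gcd dvd_rfl (hqd.trans h2)
    rw [hr] at h4
    omega
  refine fin_case G h5 q h3 (hqd.trans ?_)
  exact Subgroup.orderOf_dvd_natCard _ hg

/-- The commutator subgroup is the union of the commutator subgroups of the finitely generated
subgroups. -/
theorem exists_fg {G : Type} [Group G] (g : G) (hg : g ∈ commutator G) :
    ∃ H : Subgroup G, H.FG ∧ ∃ h : H, (h : G) = g ∧ h ∈ commutator H := by
  have key : ∀ g ∈ Subgroup.closure (commutatorSet G),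
      ∃ H : Subgroup G, H.FG ∧ ∃ h : H, (h : G) = g ∧ h ∈ commutator H := by
    intro g hg
    induction hg using Subgroup.closure_induction with
    | mem x hx =>
      obtain ⟨a, b, rfl⟩ := hx
      refine ⟨Subgroup.closure {a, b}, (Subgroup.fg_iff _).mpr ⟨{a, b}, rfl, by simp⟩, ?_⟩
      let a' : Subgroup.closure ({a, b} : Set G) := ⟨a, Subgroup.subset_closure (by simp)⟩
      let b' : Subgroup.closure ({a, b} : Set G) := ⟨b, Subgroup.subset_closure (by simp)⟩
      exact ⟨a' * b' * a'⁻¹ * b'⁻¹, rfl, Subgroup.commutator_mem_commutator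
        (Subgroup.mem_top a') (Subgroup.mem_top b')⟩
    | one =>
      exact ⟨⊥, (Subgroup.fg_iff _).mpr ⟨∅, Subgroup.closure_empty, Set.finite_empty⟩, 1, rfl,
        one_mem _⟩
    | mul x y _ _ hx hy =>
      obtain ⟨H, hH, h, h1, h2⟩ := hx
      obtain ⟨K, hK, k, k1, k2⟩ := hy
      refine ⟨H ⊔ K, hH.sup hK, ?_⟩
      have e1 := Subgroup.map_commutator ⊤ ⊤ (Subgroup.inclusion (le_sup_left : H ≤ H ⊔ K))
      refine ⟨Subgroup.inclusion le_sup_left h * Subgroup.inclusion le_sup_right k, ?_, ?_⟩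
      · simp [h1, k1]
      · refine mul_mem ?_ ?_
        · exact Subgroup.commutator_mono le_top le_top
            (by rw [← e1]; exact Subgroup.mem_map_of_mem _ h2)
        · have e2 := Subgroup.map_commutator ⊤ ⊤ (Subgroup.inclusion (le_sup_right : K ≤ H ⊔ K))
          exact Subgroup.commutator_mono le_top le_top
            (by rw [← e2]; exact Subgroup.mem_map_of_mem _ k2)
    | inv x _ hx =>
      obtain ⟨H, hH, h, h1, h2⟩ := hx
      exact ⟨H, hH, h⁻¹, by simp [h1], inv_mem h2⟩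
  refine key g ?_
  rwa [← commutator_eq_closure]

/-- An element of order prime to `5` of the derived subgroup lies in the finite residual of a
finitely generated subgroup. -/
theorem residual {G : Type} [Group G] (h5 : ∀ x y : G, (x * y * x⁻¹ * y⁻¹) ^ 5 = 1)
    (g : G) (hg : g ∈ commutator G) (r : ℕ) (hcop : Nat.Coprime 5 r) (hgr : g ^ r = 1) :
    ∃ H : Subgroup G, H.FG ∧ ∃ h : H, (h : G) = g ∧ h ∈ commutator H ∧
      ∀ N : Subgroup H, N.Normal → N.FiniteIndex → h ∈ N := by
  obtain ⟨H, hH, h, rfl, hh⟩ := exists_fg g hg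
  refine ⟨H, hH, h, rfl, hh, ?_⟩
  intro N hN hNf
  have hQ : ∀ x y : H ⧸ N, (x * y * x⁻¹ * y⁻¹) ^ 5 = 1 := by
    intro x y
    obtain ⟨a, rfl⟩ := QuotientGroup.mk_surjective x
    obtain ⟨b, rfl⟩ := QuotientGroup.mk_surjective y
    have h6 : (a * b * a⁻¹ * b⁻¹) ^ 5 = 1 := Subtype.ext (h5 a b)
    have h7 := congrArg (QuotientGroup.mk' N) h6
    simpa using h7
  have hmem : (QuotientGroup.mk' N) h ∈ commutator (H ⧸ N) := by
    have h9 := Subgroup.map_commutator ⊤ ⊤ (QuotientGroup.mk' N)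
    exact Subgroup.commutator_mono le_top le_top
      (by rw [← h9]; exact Subgroup.mem_map_of_mem _ hh)
  have h10 : ((QuotientGroup.mk' N) h) ^ r = 1 := by
    have h11 : h ^ r = 1 := Subtype.ext (by simpa using hgr)
    rw [← map_pow, h11, map_one]
  have h12 := fin_elem (H ⧸ N) hQ _ hmem r hcop h10
  exact (QuotientGroup.eq_one_iff _).mp h12

/-- **Main result.** Let `G` be a group with `[x, y]^5 = 1` for all `x`, `y`. (1) If `G` is periodic
and every finitely generated subgroup of `G` is residually finite then every element of `G'` has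
order a power of `5`. (2) For every `G`, an element `g` of `G'` with `g ^ r = 1`, `r` prime to `5`,
lies in `H'` and in all normal subgroups of finite index of `H`, for some finitely generated
subgroup `H`. (3) For every `G`, a subgroup without elements of order `5` is abelian and centralised
by its normaliser. -/
theorem result :
    ∀ (G : Type) [Group G], (∀ x y : G, (x * y * x⁻¹ * y⁻¹) ^ 5 = 1) →
      ((∀ g : G, ∃ n : ℕ, 0 < n ∧ g ^ n = 1) →
        (∀ H : Subgroup G, H.FG → ∀ h : H, h ≠ 1 →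
          ∃ N : Subgroup H, N.Normal ∧ N.FiniteIndex ∧ h ∉ N) →
        ∀ g ∈ commutator G, ∃ n : ℕ, g ^ (5 ^ n) = 1) ∧
      (∀ g ∈ commutator G, ∀ r : ℕ, Nat.Coprime 5 r → g ^ r = 1 →
        ∃ H : Subgroup G, H.FG ∧ ∃ h : H, (h : G) = g ∧ h ∈ commutator H ∧
          ∀ N : Subgroup H, N.Normal → N.FiniteIndex → h ∈ N) ∧
      (∀ H : Subgroup G, (∀ h ∈ H, h ^ 5 = 1 → h = 1) →
        ∀ x ∈ Subgroup.normalizer (H : Set G), ∀ y ∈ H, x * y = y * x) := by
  intro G _ h5
  refine ⟨?_, fun g hg r hr h => residual h5 g hg r hr h, ?_⟩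
  · intro hper hres g hg
    obtain ⟨n, hn, hgn⟩ := hper g
    obtain ⟨e, r, hr, rfl⟩ := Nat.exists_eq_pow_mul_and_not_dvd hn.ne' 5 (by norm_num)
    refine ⟨e, ?_⟩
    have hcop : Nat.Coprime 5 r := (Nat.Prime.coprime_iff_not_dvd Nat.prime_five).mpr hr
    obtain ⟨H, hH, h, h1, _, h2⟩ := residual h5 (g ^ (5 ^ e)) (pow_mem hg _) r hcop
      (by rw [← pow_mul, hgn])
    by_contra hne
    have hne' : h ≠ 1 := fun h3 => hne (by rw [← h1, h3]; rfl)
    obtain ⟨N, hN, hNf, hnot⟩ := hres H hH h hne'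
    exact hnot (h2 N hN hNf)
  · intro H hH x hx y hy
    exact norm_comm h5 H hH x y ((Subgroup.mem_normalizer_iff.mp hx y).mp hy) hy

end Pool.Agent.Results.MP_307af1_al.ResiduallyFinite
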